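import Pool.Agent.H947R2.FG.Final

set_option autoImplicit false
open scoped Pointwise

namespace Pool.Agent.Results.MP_4fa8e2_co.SqrtLogLower

/-- Doubling of finite sets in `ℝ³` with at most four points on every plane: lower bound
`exp (c √(log n / log log n))` (helper947). -/
theorem result (A : Finset (Fin 3 → ℝ))
    (hA : ∀ (u : Fin 3 → ℝ) (c : ℝ), u ≠ 0 →
      (A.filter (fun x => ∑ i, u i * x i = c)).card ≤ 4)
    (h16 : 16 ≤ A.card) :
    (A.card : ℝ) * Real.exp ((1 / 10000) *
      Real.sqrt (Real.log A.card / Real.log (Real.log A.card))) ≤ (A + A).card :=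
  H947FG.final A hA h16

end Pool.Agent.Results.MP_4fa8e2_co.SqrtLogLower
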